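import Pool.Agent.L7h31.KN.Stm

/-!
# Project KN, part TIG: a supporting hyperplane with `d` affinely independent points of the polytope
bounds one of the half-spaces
-/

set_option autoImplicit false

namespace Pool.Agent.L7h77.KN

open scoped BigOperators Topology RealInnerProductSpace
open Pool.Agent.L7h31.KN

theorem int_lt {d : ℕ} (P : Set (E d)) (p u : E d) (s : ℝ) (hp : p ∈ interior P) (hu : u ≠ 0)
    (h : ∀ x ∈ P, ⟪u, x⟫ ≤ s) : ⟪u, p⟫ < s := by
  have h1 : Filter.Tendsto (fun ε : ℝ => p + ε • u) (𝓝 0) (𝓝 (p + (0 : ℝ) • u)) :=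
    (continuous_const.add (continuous_id.smul continuous_const)).tendsto 0
  rw [zero_smul, add_zero] at h1
  have h2 : ∀ᶠ ε : ℝ in 𝓝 0, p + ε • u ∈ P := h1.eventually (mem_interior_iff_mem_nhds.1 hp)
  obtain ⟨ε, hε, hε0⟩ := ((h2.filter_mono nhdsWithin_le_nhds).and
    (self_mem_nhdsWithin : Set.Ioi (0 : ℝ) ∈ 𝓝[>] 0)).exists
  have h3 := h _ hε
  have h4 : ⟪u, p + ε • u⟫ = ⟪u, p⟫ + ε * (‖u‖ * ‖u‖) := by
    rw [inner_add_right, inner_smul_right, real_inner_self_eq_norm_mul_norm]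
  have h5 : 0 < ε * (‖u‖ * ‖u‖) :=
    mul_pos hε0 (mul_pos (norm_pos_iff.2 hu) (norm_pos_iff.2 hu))
  linarith

theorem inn_add {d : ℕ} (c z : E d) (ε : ℝ) :
    ⟪c, z + ε • c⟫ = ⟪c, z⟫ + ε * (‖c‖ * ‖c‖) := by
  rw [inner_add_right, inner_smul_right, real_inner_self_eq_norm_mul_norm]

theorem s_TIG : S_TIG := by
  intro d k a b c t v hd ha hc hint hc1 hv hvl
  have hd0 : (d : ℝ) ≠ 0 := by
    have : d ≠ 0 := by omega
    exact_mod_cast this
  -- the centroid
  set z : E d := (1 / (d : ℝ)) • ∑ l, v l with hz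
  have hzin : ∀ w : E d, (d : ℝ) * ⟪w, z⟫ = ∑ l, ⟪w, v l⟫ := by
    intro w
    rw [hz, inner_smul_right, inner_sum]
    field_simp
  have hzc : ⟪c, z⟫ = t := by
    have h1 := hzin c
    rw [Finset.sum_congr rfl fun l _ => (hvl l).2] at h1
    simp only [Finset.sum_const, Finset.card_univ, Fintype.card_fin, nsmul_eq_mul] at h1
    exact mul_left_cancel₀ hd0 h1
  have hdpos : (0 : ℝ) < d := by
    have : 0 < d := by omega
    exact_mod_cast this
  have hza : ∀ i, ⟪a i, z⟫ ≤ b i := by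
    intro i
    have h1 := hzin (a i)
    have h2 : ∑ l, ⟪a i, v l⟫ ≤ ∑ _l : Fin d, b i := Finset.sum_le_sum fun l _ => (hvl l).1 i
    simp only [Finset.sum_const, Finset.card_univ, Fintype.card_fin, nsmul_eq_mul] at h2
    rw [← h1] at h2
    exact le_of_mul_le_mul_left h2 hdpos
  -- some inequality is an equality at z
  obtain ⟨i, hi⟩ : ∃ i, ⟪a i, z⟫ = b i := by
    by_contra hcon
    push Not at hcon
    have h1 : ∀ i, ∀ᶠ ε : ℝ in 𝓝 0, ⟪a i, z + ε • c⟫ < b i := by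
      intro i
      have h2 : Filter.Tendsto (fun ε : ℝ => ⟪a i, z + ε • c⟫) (𝓝 0)
          (𝓝 ⟪a i, z + (0 : ℝ) • c⟫) :=
        (continuous_const.inner (continuous_const.add
          (continuous_id.smul continuous_const))).tendsto 0
      rw [zero_smul, add_zero] at h2
      exact h2.eventually (gt_mem_nhds (lt_of_le_of_ne (hza i) (hcon i)))
    have h2 : ∀ᶠ ε : ℝ in 𝓝 0, ∀ i, ⟪a i, z + ε • c⟫ < b i := Filter.eventually_all.2 h1
    obtain ⟨ε, hε, hε0⟩ := ((h2.filter_mono nhdsWithin_le_nhds).and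
      (self_mem_nhdsWithin : Set.Ioi (0 : ℝ) ∈ 𝓝[>] 0)).exists
    have h3 := hc1 _ fun i => (hε i).le
    have h4 := inn_add c z ε
    have h5 : 0 < ε * (‖c‖ * ‖c‖) :=
      mul_pos hε0 (mul_pos (norm_pos_iff.2 hc) (norm_pos_iff.2 hc))
    linarith
  have hvb : ∀ l, ⟪a i, v l⟫ = b i := by
    have h1 : ∑ l, (b i - ⟪a i, v l⟫) = 0 := by
      rw [Finset.sum_sub_distrib, ← hzin, hi]
      simp
    rw [Finset.sum_eq_zero_iff_of_nonneg fun l _ => sub_nonneg.2 ((hvl l).1 i)] at h1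
    intro l
    have := h1 l (Finset.mem_univ _)
    linarith
  have hai : a i ≠ 0 := by
    intro h0
    have := ha i
    rw [h0, norm_zero] at this
    exact zero_ne_one this
  -- the linear span of the differences
  have hfr : Module.finrank ℝ (E d) = (d - 1) + 1 := by
    rw [finrank_euclideanSpace_fin]; omega
  have hfact : Fact (Module.finrank ℝ (E d) = (d - 1) + 1) := ⟨hfr⟩
  have hW : Module.finrank ℝ (vectorSpan ℝ (Set.range v)) = d - 1 := by
    apply hv.finrank_vectorSpan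
    rw [Fintype.card_fin]; omega
  have horth : ∀ (u : E d) (s : ℝ), (∀ l, ⟪u, v l⟫ = s) →
      vectorSpan ℝ (Set.range v) ≤ (ℝ ∙ u)ᗮ := by
    intro u s hs
    rw [vectorSpan_def, Submodule.span_le]
    rintro _ ⟨_, ⟨l, rfl⟩, _, ⟨l', rfl⟩, rfl⟩
    rw [SetLike.mem_coe, Submodule.mem_orthogonal_singleton_iff_inner_right]
    show ⟪u, v l - v l'⟫ = 0
    rw [inner_sub_right, hs, hs, sub_self]
  have heq : ∀ u : E d, u ≠ 0 → ∀ s : ℝ, (∀ l, ⟪u, v l⟫ = s) →
      vectorSpan ℝ (Set.range v) = (ℝ ∙ u)ᗮ := by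
    intro u hu s hs
    apply Submodule.eq_of_le_of_finrank_eq (horth u s hs)
    rw [hW]
    exact (Submodule.finrank_orthogonal_span_singleton (n := d - 1) hu).symm
  have h1 : (ℝ ∙ (a i))ᗮ = (ℝ ∙ c)ᗮ := by
    rw [← heq (a i) hai (b i) hvb, ← heq c hc t fun l => (hvl l).2]
  have h2 : (ℝ ∙ (a i)) = (ℝ ∙ c) := by
    rw [← Submodule.orthogonal_orthogonal (ℝ ∙ (a i)), h1, Submodule.orthogonal_orthogonal]
  obtain ⟨r, hr⟩ := Submodule.mem_span_singleton.1
    (show a i ∈ (ℝ ∙ c) by rw [← h2]; exact Submodule.mem_span_singleton_self _)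
  obtain ⟨p, hp⟩ := hint
  have hp1 : ⟪a i, p⟫ < b i := int_lt _ p (a i) (b i) hp hai fun x hx => hx i
  have hp2 : ⟪c, p⟫ < t := int_lt _ p c t hp hc fun x hx => hc1 x hx
  have hl0 : r * t = b i := by
    rw [← hvb ⟨0, by omega⟩, ← hr, real_inner_smul_left, (hvl ⟨0, by omega⟩).2]
  have hrp : r * ⟪c, p⟫ < r * t := by
    rw [hl0, ← real_inner_smul_left, hr]
    exact hp1
  have hr0 : 0 < r := by
    by_contra hcon
    push Not at hcon
    nlinarith
  have hn : r * ‖c‖ = 1 := by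
    rw [← ha i, ← hr, norm_smul, Real.norm_of_nonneg hr0.le]
  have hc0 : ‖c‖ ≠ 0 := norm_ne_zero_iff.2 hc
  have hr1 : r = 1 / ‖c‖ := by
    field_simp
    exact hn
  refine ⟨i, ?_, ?_⟩
  · rw [← hr1, hr]
  · rw [← hl0, hr1]
    ring

end Pool.Agent.L7h77.KN
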